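import Pool.Agent.H378.SF.FinB

/-!
# Dade's ordinary conjecture implies his invariant conjecture for all `p`-hypoelementary quotients

Let `p` be a prime. Dade's invariant conjecture for a normal subgroup `G` of the finite group `E`
with `O_p(G) = 1` says that for each block `B` of `G` with nontrivial defect groups, each `d` and
each `U ≤ E / G` the alternating sum over the classes of the radical `p`-chains `σ` of `G` of the
number of the `ψ ∈ Irr(N_G(σ))` of defect `d` in blocks inducing `B` with `N_E(σ, ψ) G / G = U` is
zero. For `E = G` this is his ordinary conjecture.

A group is `p`-hypoelementary if it has a normal `p`-subgroup with cyclic quotient. We prove that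
the ordinary conjecture for all finite groups is equivalent to the invariant conjecture for all
`p`-hypoelementary quotients `E / G`, in particular for all quotients which are `p`-groups. Both are
equivalent to the statement that for all `E` (the quotient is arbitrary now), and all subgroups
`U / G` of `E / G` which are `p`-hypoelementary, the alternating sum of the numbers of the `ψ` such
that `U ≤ N_E(σ, ψ) G` is zero. (By Conlon's theorem this means that the alternating sum of the
permutation modules over a field of characteristic `p`, given by the action of `E / G` on the
pairs `(σ, ψ)` modulo `G`, vanishes in the Green ring.)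

The proof. For a subgroup `H` let `F_H` be the sum over the `χ ∈ Irr(H)` (with prescribed central
characters) of `(p^d(χ) χ(1) / |H|)^(2g-2) χ(1) χ / |H|`. If `N` is a normal subgroup of `H` of
`p`-power index then `F_H` is `F_N`, extended by zero. The sum of `F_H` over the products of `g`
commutators of elements of given cosets of `H` counts the characters which are fixed by elements of
these cosets, with weight `p^((2g-2) d(χ))`. So for the fibre product `Δ` of `U` with itself over
`U / G` the known case of cyclic quotients yields a relation for the sums for `Δ ∩ (K × K)`, where
`K / G` is a normal `p`-subgroup with `U / K` cyclic. A comparison of the chains of this group with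
the chains of `G × G`, and an induction, turn it into the equation `∑ |Z(c)|² = 0` where `Z(c)` are
the alternating sums for `G` and for the tuples `c` of cosets in question. Hence all `Z(c)` vanish.
Characters of defect zero of centralisers of `p`-groups are treated by the Brauer morphism.
-/

open scoped Classical

noncomputable section

namespace Pool.Agent.Results.MP_baa4d7_al.HypoelementaryQuotients

open Pool.Agent.X209.DQ (altW IsRad kI NoDZ Ord Invt)
open Pool.Agent.X209.PJ (IsCore)
open Pool.Agent.Y63.NV (IsBlock)
open Pool.Agent.H378.SF (Hyp kU)

/-- Let `p` be a prime, `F` a field of characteristic `p` and `red` a ring homomorphism from the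
algebraic integers to `F`. The following are equivalent.

(1) Dade's ordinary conjecture holds for all finite groups `H` with `O_p(H) = 1`.

(2) Dade's invariant conjecture holds for all finite groups `E` with a normal subgroup `G` such that
`O_p(G) = 1` and `E / G` is `p`-hypoelementary, i.e. has a normal `p`-subgroup with cyclic quotient.

(3) For all finite groups `E`, all normal subgroups `G` with `O_p(G) = 1`, all subgroups `U` of `E`
containing `G` such that `U / G` is `p`-hypoelementary, all blocks `B` of `G` with nontrivial defect
groups and all `d` the alternating sum over the classes of the radical `p`-chains `σ` of `G` of the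
number of the irreducible characters `ψ` of `N_G(σ)` of defect `d` in blocks inducing `B`, such that
each coset `u G`, `u ∈ U`, contains an element which fixes `σ` and `ψ`, is zero. -/
theorem result (p : ℕ) [Fact p.Prime] {F : Type} [Field F] [CharP F p]
    (red : integralClosure ℤ ℂ →+* F) : List.TFAE [
    ∀ (H : Type) [Group H] [Finite H], IsCore p (⊥ : Subgroup H) → Ord red p H,
    ∀ (E : Type) [Group E] [Finite E] (G : Subgroup E) [G.Normal], IsCore p (⊥ : Subgroup G) →
      Hyp p G (⊤ : Subgroup E) → Invt red p G,
    ∀ (E : Type) [Group E] [Finite E] (G : Subgroup E) [G.Normal], IsCore p (⊥ : Subgroup G) →
      ∀ U : Subgroup E, Hyp p G U → ∀ B : (G → F) → F, IsBlock B → NoDZ p red B → ∀ d : ℕ,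
        altW p (IsRad p) (fun σ => (kU red p B d U σ : ℤ)) = 0] :=
  Pool.Agent.H378.SF.hypoelementary red

end Pool.Agent.Results.MP_baa4d7_al.HypoelementaryQuotients
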