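import Pool.Agent.H373.PD.F7

/-!
# Dade's invariant conjecture: split extensions of groups with three normal subgroups suffice

Let `p` be a prime, and let `q > 7` be a prime with `p ∣ q + 1` (and `4 ∣ q + 1` if `p = 2`); there
are infinitely many such `q`. Let `X_n` be the regular wreath product of `PSL(2, q)` and `A_n`.

(1) For `n ≥ 5` the group `X_n` is a primitive permutation group with exactly three normal subgroups,
and `O_p(X_n) = 1`.

(2) Let `Λ` be a complete discrete valuation ring with residue field of characteristic `p`, which
contains a primitive root of unity of order `(q - 1) / 2` (this is true if the residue field is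
algebraically closed), and let `W` be a field containing `Λ`. For every exact sequence
`1 → G → E → Q → 1` of finite groups and every `n ≥ 6 (|E| + |Q|)` there is a split exact sequence
`1 → X_n → Y → Q → 1` with `C_Y(X_n) = 1`, such that for every block `b` of `ΛG` there is a block
`b'` of `ΛX_n` which is a matrix ring over `b` and has an isomorphic defect group, and all of Dade's
alternating sums (over the classes of chains of `p`-subgroups which start with `1`) of the numbers
`k_C(b, d, U)` and `k_C(b', d, U)` are the same, for all defects `d` and all subgroups `U` of `Q`.

(3) So for every group `Q`: Dade's invariant conjecture holds for all `G` with `O_p(G) = 1` and all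
extensions `1 → G → E → Q → 1`, if and only if it holds for the split extensions
`1 → X_n → Y → Q → 1` with `C_Y(X_n) = 1`, `n` in an infinite set, if and only if it holds for the
split extensions `1 → G → E → Q → 1` with `C_E(G) = 1` of the primitive permutation groups `G` with
exactly three normal subgroups and `O_p(G) = 1`; and the same is true with any property of the
function `(d, U) ↦` (alternating sum) in place of its vanishing.

Idea of the proof. `Y = PSL(2, q) ^ (A_n) ⋊ (A_n × Q)`, where `(x, u)` acts on the index set `A_n` by
`y ↦ x y c(u)⁻¹`, for embeddings `E → A_n` and `c : Q → A_n` with disjoint supports; there is a subset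
of `A_n` the stabiliser of which in `A_n × Q` is the image of `E`. Two linear characters of a Borel
subgroup of `PSL(2, q)` of order prime to `p` define, by means of this subset, a linear character of a
subgroup `V` of order prime to `p` of the base group; its stabiliser in `Y` is `V ⋊ E`, and `V ⋊ G` in
`X_n`, and Mackey's condition holds. Induction from `V G` to `X_n` identifies the blocks of `G` with
blocks of `X_n`; the same is true for the stabilisers of the chains of `p`-subgroups of `G`, and
Mackey's condition in `Y` for the chains shows that the stabilisers of corresponding characters have
the same image in `Q`.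
-/

set_option autoImplicit false

open Pool.Agent.H373.BU Pool.Agent.H373.MN Pool.Agent.H373.PD IsLocalRing

theorem Pool.Agent.Results.MP_baa4d7_al.SplitExtensions.result (p : ℕ) [Fact p.Prime] :
    (∀ N : ℕ, ∃ q, N < q ∧ Good p q) ∧
    ∀ q, Good p q → FamR p q ∧
      ∀ (L : Type) [CommRing L] [IsDomain L] [IsDiscreteValuationRing L]
        [IsAdicComplete (maximalIdeal L) L] [CharP (ResidueField L) p] (W : Type) [Field W]
        (s : L →+* W), Function.Injective s →
        (IsAlgClosed (ResidueField L) → ∃ ζ : L, IsPrimitiveRoot ζ ((q - 1) / 2)) ∧
        ((∃ ζ : L, IsPrimitiveRoot ζ ((q - 1) / 2)) →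
          ReproAllI p q s ∧
          ∀ (Q : Type) [Group Q],
            (∀ S : Set ℕ, S.Infinite →
              ((∀ (G E : Type) [Group G] [Group E] [Finite E] (X : Ext G E Q), NoCore p G →
                  InvDade p s X) ↔
                ∀ n ∈ S, 5 ≤ n → ∀ (Y : Type) [Group Y] [Finite Y] (X : Ext (XR n q) Y Q),
                  X.Outer → InvDade p s X)) ∧
            ((∀ (G E : Type) [Group G] [Group E] [Finite E] (X : Ext G E Q), NoCore p G →
                InvDade p s X) ↔
              ∀ (G E : Type) [Group G] [Group E] [Finite E] (X : Ext G E Q), PrimitiveThree G →
                NoCore p G → X.Outer → InvDade p s X) ∧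
            ∀ R : (ℕ → Subgroup Q → ℤ) → Prop,
              (∀ (G E : Type) [Group G] [Group E] [Finite E] (X : Ext G E Q), NoCore p G →
                ∀ b : MonoidAlgebra L G, IsBlock b → PosDefect (red (rs L) b) →
                  R fun d U => invSum p s d X U b) ↔
              ∀ (G E : Type) [Group G] [Group E] [Finite E] (X : Ext G E Q), PrimitiveThree G →
                NoCore p G → X.Outer → ∀ b : MonoidAlgebra L G, IsBlock b →
                  PosDefect (red (rs L) b) → R fun d U => invSum p s d X U b) :=
  inv_three p
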